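import Mathlib
import Pool.Agent.Helper62.BinDefs
import Pool.Agent.Helper62.BinMain

namespace Pool.Agent.Results.MP_a8335c_lc.BinaryUpperBound

open Pool.Agent.Helper62.BinDefs

/-- For every complete first-order chart, the information complexity under the general binary
oracle is at most a constant times `d ^ 3 * log (d + 1) * log (2 + d * (R / ρ) * (1 + M * R / ε))`.
Consequently, in every dimension and for every `c > 0`, the lower bound
`c * d ^ 2 * log (M * R / (ρ * ε)) ^ 2` fails for all charts as soon as `ε` is small. -/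
theorem result :
    (∀ (d : ℕ) (R ρ M ε : ℝ), 1 ≤ d → 0 < ρ → ρ ≤ R → 0 < M → 0 < ε →
      Nonempty (Chart d R ρ M) ∧
      ∀ G : Chart d R ρ M, ∃ N : ℕ, icomp G ε ≤ N ∧
        (N : ℝ) ≤ 2000 * d ^ 3 * Real.log ((d : ℝ) + 1) *
          Real.log (2 + d * (R / ρ) * (1 + M * R / ε))) ∧
    (∀ (d : ℕ) (R ρ M c : ℝ), 1 ≤ d → 0 < ρ → ρ ≤ R → 0 < M → 0 < c →
      ∃ ε₀ : ℝ, 0 < ε₀ ∧ ∀ ε : ℝ, 0 < ε → ε < ε₀ → 2 ≤ M * R / (ρ * ε) ∧
        ∀ G : Chart d R ρ M, ∃ N : ℕ, icomp G ε ≤ N ∧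
          (N : ℝ) < c * d ^ 2 * Real.log (M * R / (ρ * ε)) ^ 2) :=
  ⟨fun d R ρ M ε hd hρ hρR hM hε =>
    ⟨Pool.Agent.Helper62.BinChart.nonempty_chart hd (lt_of_lt_of_le hρ hρR) hM,
      fun G => Pool.Agent.Helper62.BinMain.upper d R ρ M ε hd hρ hρR hM hε G⟩,
    fun d R ρ M c hd hρ hρR hM hc =>
      Pool.Agent.Helper62.BinMain.refute d R ρ M c hd hρ hρR hM hc⟩

end Pool.Agent.Results.MP_a8335c_lc.BinaryUpperBound
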